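import Mathlib
import Pool.Agent.H68.CD.Fin

/-!
# No nonzero mixed representation has projective or injective dimension at most one

Let `F` be a number field, `l` a prime number and `𝒜` a class of representations of the absolute Galois
group of `F` on vector spaces over `ℚ_l` which contains zero and is closed under subobjects, quotients,
finite direct sums and under the passage from `V` to the extensions of `V` by `V(1)` given by Kummer
cocycles which are coboundaries at the places above `l`. The class of the `l`-adic representations which
are potentially semistable at the places above `l` has these properties: at these places the extension is
the direct sum of `V` and `V(1)`.

We prove for EVERY nonzero object `V` of the abelian category of the mixed representations in `𝒜`: the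
space `Ext ^ 2 (V, V(2))` has dimension at least the cardinality of the continuum over `ℚ_l`. So no nonzero
object has projective dimension or (if `V(-2)` belongs to the category) injective dimension at most one.
The same holds in the subcategory of the representations which have a weight filtration with semisimple
graded pieces, which is the analogue of the category for which the cohomological dimension is known to be
the Kronecker dimension in positive characteristic.

As in the text of the problem, only the graded pieces of an object are required to be unramified outside
finitely many places; the object itself may be ramified at infinitely many places. Nothing is proved about
the subcategory of the representations which are unramified outside finitely many places.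

The proof. The nodes of the binary tree are enumerated, and for each node prime numbers `P`, `R`, `Q` are
chosen such that for every path `x` the infinite product `α_x = ∏ (P_i R_i) ^ (l ^ i)` over the nodes of
the path is `1` in the `l`-adic numbers, the infinite product `β = ∏ Q_j ^ (l ^ j)` over all nodes is `1`
in the `l`-adic numbers, and the order of `β` modulo `P_i` is large. If a linear combination of the
products of the Kummer classes of `α_x` and `β`, twisted by `V`, were zero, there would be a representation
with the graded pieces `V`, `V(1)`, `V(2)`. The trace of its normalized matrix coefficient is a continuous
function whose coboundary is the dimension of `V` times the linear combination of the cup products, and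
the relation between Frobenius and tame inertia at the primes `P_i` on a path shows that it is unbounded,
which is impossible since the Galois group is compact.
-/

set_option autoImplicit false

universe w

open CategoryTheory Abelian Pool.Agent.N491.CD Pool.Agent.H68.CD

namespace Pool.Agent.Results.MP_5968e7_ag.EveryNonzeroObject

theorem result {F : Type} [Field F] [NumberField F] {l : ℕ} [Fact l.Prime]
    (𝒜 : ObjectProperty (Reps F l)) [IsKummerClosed 𝒜] :
    (∀ [HasExt.{w} (MCat 𝒜)], ExtTwoIsLarge.{w} 𝒜) ∧
    (∀ [HasExt.{w} (MCat (Semi 𝒜))], ExtTwoIsLarge.{w} (Semi 𝒜)) := by
  refine ⟨?_, ?_⟩
  · intro inst
    exact @extTwoIsLarge F _ _ l _ 𝒜 _ inst
  · intro inst
    exact @extTwoIsLarge F _ _ l _ (Semi 𝒜) (kummerClosed_semi 𝒜) inst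

end Pool.Agent.Results.MP_5968e7_ag.EveryNonzeroObject
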